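import Pool.Agent.helper9.HX.Spec

/-!
# MP_d9e35a_co, row hx:UP
-/

set_option autoImplicit false

open scoped Classical

namespace Pool.Agent.helper9.HX

open Finset
open Pool.Agent.helper65.HC (V IsEig IsTop lam)
open Pool.Agent.helper9.HQ (Fam Dn E N Le hi c)
open Pool.Agent.helper9

theorem UP (hOPH : OPH_stmt) (hCA : CA_stmt) (hCB : CB_stmt) (hN3 : N3_stmt) : UP_stmt := by
  obtain ⟨m1, h1⟩ := hOPH
  obtain ⟨m2, h2⟩ := hCA
  obtain ⟨m3, h3⟩ := hCB
  refine ⟨max m1 (max m2 m3), fun m hm d U l f hf hc => ?_⟩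
  have hm1 : m1 ≤ m := (le_max_left _ _).trans hm
  have hm2 : m2 ≤ m := ((le_max_left _ _).trans (le_max_right _ _)).trans hm
  have hm3 : m3 ≤ m := ((le_max_right _ _).trans (le_max_right _ _)).trans hm
  by_contra hcon
  rw [not_le] at hcon
  have h4 : (m : ℝ) / 2 ≤ Xs d m :=
    ((hN3.2 (m : ℝ) (((m + 1) / 2 : ℕ) : ℝ)).2).trans (le_max_right _ _)
  have hst : St m U l f := ⟨hf, hc, h4.trans hcon.le, h1 m hm1 d U f hf.dn hf.em hc⟩
  rcases Nat.lt_or_ge (ee U) (nu U) with h | h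
  · exact absurd (h2 m hm2 d U l f hst h) (not_le.2 hcon)
  · exact absurd (h3 m hm3 d U l f hst h) (not_le.2 hcon)

end Pool.Agent.helper9.HX
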